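import Pool.Agent.H90.SPW.Targets

set_option autoImplicit false

open Finset
open scoped BigOperators Classical

namespace Pool.Agent.H17.SPW
open Pool.Agent.H90.SPW

theorem DE_nonneg {X E Y : Type} [Fintype X] [Fintype E] [Fintype Y] (c : Ch X E Y) (Lam : ℝ)
    (h : ℕ) (x x' : X) : 0 ≤ c.DE Lam h x x' := by
  unfold Ch.DE
  refine Finset.sum_nonneg fun y _ => Finset.sum_nonneg fun t₁ _ => Finset.sum_nonneg fun t₂ _ => ?_
  split_ifs
  · refine Finset.sum_nonneg fun e₁ _ => Finset.sum_nonneg fun e₂ _ => ?_
    split_ifs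
    · have h1 := c.P_nonneg t₁ x (c.src e₁)
      have h2 := c.use_nonneg y e₁
      have h3 := c.P_nonneg (t₂ - t₁ - 1) (c.tgt e₁) (c.src e₂)
      have h4 := c.use_nonneg y e₂
      have h5 := c.P_nonneg (h - 1 - t₂) (c.tgt e₂) x'
      positivity
    · exact le_rfl
  · exact le_rfl

theorem pf_TOP (hEM : T_EM) (hP2 : T_P2) : T_TOP := by
  intro X E Y _ _ _ c Lam eta cc kap n hLam heta hcc hkap hUse s hs hs1
  have hlog : 0 < Real.log Lam - 1 := by
    have h0 : (0 : ℝ) < Lam := lt_trans (Real.exp_pos 1) hLam
    have := Real.log_lt_log (Real.exp_pos 1) hLam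
    rw [Real.log_exp] at this
    linarith
  set B : ℝ := (Real.log ((n + 1) * Fintype.card X) + 1) / (Real.log Lam - 1) with hB
  have hB0 : 0 ≤ B := by
    have h1 : 0 ≤ Real.log ((n + 1) * Fintype.card X) := by
      have h := Real.log_natCast_nonneg ((n + 1) * Fintype.card X)
      push_cast at h
      exact h
    exact div_nonneg (by linarith) hlog.le
  -- the pointwise bound
  have hpt : ∀ x x', (if c.Good Lam eta cc n x x' then 0 else s x * c.P n x x') ≤
      s x * eta + s x * (c.DE Lam n x x' / cc) := by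
    intro x x'
    have h1 := mul_nonneg (hs x) heta.le
    have h2 := mul_nonneg (hs x) (div_nonneg (DE_nonneg c Lam n x x') hcc.le)
    split_ifs with hg
    · linarith
    · unfold Ch.Good at hg
      rw [not_and_or, not_le, not_le] at hg
      rcases hg with hg | hg
      · have := mul_le_mul_of_nonneg_left hg.le (hs x)
        linarith
      · have h3 : c.P n x x' ≤ c.DE Lam n x x' / cc := by
          rw [le_div_iff₀ hcc]
          linarith
        have := mul_le_mul_of_nonneg_left h3 (hs x)
        linarith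
  have hx : ∀ x, ∑ x', (if c.Good Lam eta cc n x x' then 0 else s x * c.P n x x') ≤
      s x * (eta * Fintype.card X + kap * B / cc) := by
    intro x
    have h1 := hEM X E Y c Lam hLam.le n x
    have h2 := hP2 X E Y c Lam n kap hkap hUse x
    set Am : ℝ := ∑ y, ∑ t ∈ range n, ∑ e, (if c.Amp Lam t x (c.tgt e) y then
          c.P t x (c.src e) * c.use y e else 0) with hAm
    have h3 : Am ≤ B := by
      rw [hB, le_div_iff₀ hlog]
      linarith
    have h4 : ∑ x', c.DE Lam n x x' ≤ kap * B := h2.trans (mul_le_mul_of_nonneg_left h3 hkap)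
    have h5 : (∑ x', c.DE Lam n x x') / cc ≤ kap * B / cc :=
      div_le_div_of_nonneg_right h4 hcc.le
    calc ∑ x', (if c.Good Lam eta cc n x x' then 0 else s x * c.P n x x')
        ≤ ∑ x', (s x * eta + s x * (c.DE Lam n x x' / cc)) :=
          Finset.sum_le_sum fun x' _ => hpt x x'
      _ = s x * (eta * Fintype.card X + (∑ x', c.DE Lam n x x') / cc) := by
          rw [Finset.sum_add_distrib, Finset.sum_const, ← Finset.mul_sum, Finset.card_univ,
            nsmul_eq_mul, Finset.sum_div]
          ring
      _ ≤ s x * (eta * Fintype.card X + kap * B / cc) :=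
          mul_le_mul_of_nonneg_left (by linarith) (hs x)
  have hR : 0 ≤ eta * Fintype.card X + kap * B / cc := by positivity
  calc ∑ x, ∑ x', (if c.Good Lam eta cc n x x' then 0 else s x * c.P n x x')
      ≤ ∑ x, s x * (eta * Fintype.card X + kap * B / cc) := Finset.sum_le_sum fun x _ => hx x
    _ = (∑ x, s x) * (eta * Fintype.card X + kap * B / cc) := by rw [Finset.sum_mul]
    _ ≤ 1 * (eta * Fintype.card X + kap * B / cc) := mul_le_mul_of_nonneg_right hs1 hR
    _ = _ := one_mul _

end Pool.Agent.H17.SPW
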